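import Pool.Agent.TH181.MX.Lin
import Pool.Agent.TH181.MW.HuaB
import Pool.Agent.H807R2.Dav1

/-! # fourth moment in the linear coefficient, for a fixed leading coefficient -/

set_option autoImplicit false

open Finset MeasureTheory

namespace Pool.Agent.TH181.MX

open Pool.Agent.W928.MW (e sm e_add e_norm e_sub_re e_cont sm_le e_lip)
open Pool.Agent.TH181.MW (e_zero LS LS_sum LS_card mem_LS LS_zero AA ph AA_sub TT sm_TT TT_sq weyl_step TT_im PP
  PP_eval ph_id AA_card card_H ph_dvd)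
open Pool.Agent.H807R2.Dav (ee KK KK_nonneg KK_neg KK_le geo_bound vino)

theorem TT_one (k N : ℕ) (t ξ : ℝ) (h : ℤ) : TT k N t ξ [h] = e (ξ * (h : ℝ)) * TT k N t 0 [h] := by
  unfold Pool.Agent.TH181.MW.TT
  rw [Finset.mul_sum]
  apply Finset.sum_congr rfl
  intro n _
  rw [← e_add]
  congr 1
  simp only [ph]
  push_cast
  ring

/-- the fourth moment is at most the sum over twice differenced sums -/
theorem mv_four (k N : ℕ) (t : ℝ) :
    MV k N t 4 (∑ l ∈ LS (Icc (-(N : ℤ)) N) 2, ‖TT k N t 0 l‖) := by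
  intro u v c huv
  have huv' : (u : ℝ) ≤ (v : ℝ) := by exact_mod_cast huv
  have h1 : ∀ x : ℝ, ‖sm k N t (x + c)‖ ^ 4 =
      ‖∑ h ∈ Icc (-(N : ℤ)) N, e (x * (h : ℝ)) * (e (c * (h : ℝ)) * TT k N t 0 [h])‖ ^ 2 := by
    intro x
    have h2 : ((‖sm k N t (x + c)‖ ^ 2 : ℝ) : ℂ) =
        ∑ h ∈ Icc (-(N : ℤ)) N, e (x * (h : ℝ)) * (e (c * (h : ℝ)) * TT k N t 0 [h]) := by
      rw [sm_TT, TT_sq]
      apply Finset.sum_congr rfl
      intro h _
      rw [TT_one, ← mul_assoc, ← e_add]
      congr 2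
      ring
    rw [← h2, Complex.norm_real, Real.norm_of_nonneg (by positivity)]
    ring
  simp_rw [h1]
  rw [parseval (Icc (-(N : ℤ)) N) (fun h : ℤ => h) (fun a _ b _ h => h)]
  apply mul_le_mul_of_nonneg_left _ (by linarith)
  have h3 : ∑ h ∈ Icc (-(N : ℤ)) N, ‖e (c * (h : ℝ)) * TT k N t 0 [h]‖ ^ 2 =
      (∑ l ∈ LS (Icc (-(N : ℤ)) N) 2, TT k N t 0 l).re := by
    rw [LS_sum, Complex.re_sum, LS_sum]
    simp only [LS, Finset.sum_singleton]
    apply Finset.sum_congr rfl
    intro h _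
    rw [norm_mul, e_norm, one_mul, ← TT_sq, Complex.ofReal_re]
  rw [h3]
  exact (Complex.re_le_norm _).trans (norm_sum_le _ _)

/-- iterated differencing from level two -/
theorem iter (k N : ℕ) (t : ℝ) (i : ℕ) :
    (∑ l ∈ LS (Icc (-(N : ℤ)) N) 2, ‖TT k N t 0 l‖) ^ (2 ^ i) * (2 * (N : ℝ) + 1) ^ (i + 3) ≤
      (2 * (N : ℝ) + 1) ^ (3 * 2 ^ i) * ∑ l ∈ LS (Icc (-(N : ℤ)) N) (2 + i), ‖TT k N t 0 l‖ := by
  induction i with
  | zero => simp [mul_comm]
  | succ i ih =>
    set H : ℝ := 2 * (N : ℝ) + 1 with hH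
    have hH0 : 0 < H := by positivity
    set A : ℝ := ∑ l ∈ LS (Icc (-(N : ℤ)) N) 2, ‖TT k N t 0 l‖ with hA
    set B : ℝ := ∑ l ∈ LS (Icc (-(N : ℤ)) N) (2 + i), ‖TT k N t 0 l‖ with hB
    set C : ℝ := ∑ l ∈ LS (Icc (-(N : ℤ)) N) (2 + (i + 1)), ‖TT k N t 0 l‖ with hC
    have hA0 : 0 ≤ A := Finset.sum_nonneg (fun l _ => norm_nonneg _)
    have hB0 : 0 ≤ B := Finset.sum_nonneg (fun l _ => norm_nonneg _)
    have hstep : B ^ 2 ≤ H ^ (2 + i) * C := by
      refine (weyl_step k N (2 + i) t 0).trans ?_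
      apply mul_le_mul_of_nonneg_left _ (by positivity)
      exact (Complex.re_le_norm _).trans (norm_sum_le _ _)
    have h2 := pow_le_pow_left₀ (by positivity) ih 2
    rw [mul_pow, mul_pow, ← pow_mul, ← pow_mul, ← pow_mul] at h2
    have h3 : A ^ (2 ^ (i + 1)) * H ^ ((i + 3) * 2) ≤ H ^ (3 * 2 ^ i * 2) * (H ^ (2 + i) * C) := by
      rw [pow_succ 2 i]
      exact h2.trans (mul_le_mul_of_nonneg_left hstep (by positivity))
    have h4 : (A ^ (2 ^ (i + 1)) * H ^ (i + 1 + 3)) * H ^ (i + 2) ≤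
        (H ^ (3 * 2 ^ (i + 1)) * C) * H ^ (i + 2) := by
      have e1 : (A ^ (2 ^ (i + 1)) * H ^ (i + 1 + 3)) * H ^ (i + 2) = A ^ (2 ^ (i + 1)) * H ^ ((i + 3) * 2) := by
        rw [mul_assoc, ← pow_add]
        congr 2
        ring
      have e2 : (H ^ (3 * 2 ^ (i + 1)) * C) * H ^ (i + 2) = H ^ (3 * 2 ^ i * 2) * (H ^ (2 + i) * C) := by
        rw [pow_succ 2 i]
        have : 3 * (2 ^ i * 2) = 3 * 2 ^ i * 2 := by ring
        rw [this, add_comm 2 i]
        ring
      rw [e1, e2]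
      exact h3
    exact le_of_mul_le_mul_right h4 (by positivity)

/-- the range of summation is an interval -/
theorem AA_int (N : ℕ) (l : List ℤ) : ∃ a b : ℤ, AA N l = Icc a b := by
  induction l with
  | nil => exact ⟨1, N, rfl⟩
  | cons h l ih =>
    obtain ⟨a, b, hab⟩ := ih
    refine ⟨max a (a - h), min b (b - h), ?_⟩
    rw [AA, hab]
    ext n
    simp only [Finset.mem_filter, Finset.mem_Icc]
    omega

open Polynomial in
/-- the leading coefficient of the iterated difference -/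
theorem PP_lc (k : ℕ) (l : List ℤ) (hl : l.length ≤ k) :
    (PP k l).natDegree ≤ k - l.length ∧ (PP k l).coeff (k - l.length) = (k.descFactorial l.length : ℤ) * l.prod := by
  induction l with
  | nil => simp [PP]
  | cons h l ih =>
    rw [List.length_cons] at hl
    obtain ⟨h1, h2⟩ := ih (by omega)
    simp only [PP, List.length_cons, List.prod_cons]
    rw [← taylor_apply]
    set d : ℕ := k - l.length with hd
    have hd' : k - (l.length + 1) = d - 1 := by omega
    have hd1 : 1 ≤ d := by omega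
    rw [hd']
    constructor
    · rw [natDegree_le_iff_coeff_eq_zero]
      intro n hn
      rw [coeff_sub]
      rcases Nat.lt_or_ge d n with h3 | h3
      · rw [coeff_eq_zero_of_natDegree_lt (by rw [natDegree_taylor]; omega),
          coeff_eq_zero_of_natDegree_lt (by omega), sub_self]
      · have h4 : n = d := by omega
        rw [h4]
        rcases Nat.lt_or_ge (PP k l).natDegree d with h5 | h5
        · rw [coeff_eq_zero_of_natDegree_lt (by rw [natDegree_taylor]; omega),
            coeff_eq_zero_of_natDegree_lt h5, sub_self]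
        · have h6 : d = (PP k l).natDegree := le_antisymm h5 h1
          rw [h6, coeff_taylor_natDegree, coeff_natDegree, sub_self]
    · rw [coeff_sub, taylor_coeff]
      have h3 : (hasseDeriv (d - 1) (PP k l)).natDegree < 2 := by
        have := natDegree_hasseDeriv_le (PP k l) (d - 1)
        omega
      rw [eval_eq_sum_range' h3, Finset.sum_range_succ, Finset.sum_range_succ, Finset.sum_range_zero,
        hasseDeriv_coeff, hasseDeriv_coeff]
      have h4 : 1 + (d - 1) = d := by omega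
      rw [zero_add, zero_add, Nat.choose_self, pow_zero, pow_one, Nat.cast_one, one_mul, mul_one, h4, h2]
      have h5 : (d.choose (d - 1) : ℤ) = d := by
        obtain ⟨d', hd'⟩ : ∃ d', d = d' + 1 := ⟨d - 1, by omega⟩
        rw [hd', Nat.add_sub_cancel, Nat.choose_succ_self_right]
      rw [h5, Nat.descFactorial_succ]
      push_cast
      ring

/-- after `k-1` differences the phase is linear -/
theorem ph_lin (k : ℕ) (hk : 1 ≤ k) (l : List ℤ) (hl : l.length = k - 1) :
    ∃ β : ℤ, ∀ n : ℤ, ph (fun n => n ^ k) l n = ((k.factorial : ℤ) * l.prod) * n + β := by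
  obtain ⟨h1, h2⟩ := PP_lc k l (by omega)
  have h3 : k - l.length = 1 := by omega
  rw [h3] at h1 h2
  refine ⟨(PP k l).coeff 0, fun n => ?_⟩
  rw [← PP_eval, Polynomial.eval_eq_sum_range' (show (PP k l).natDegree < 2 by omega), Finset.sum_range_succ,
    Finset.sum_range_succ, Finset.sum_range_zero, h2, hl]
  have h4 : k.descFactorial (k - 1) = k.factorial := by
    have h5 := Nat.factorial_mul_descFactorial (show k - 1 ≤ k by omega)
    have h6 : k - (k - 1) = 1 := by omega
    rw [h6, Nat.factorial_one, one_mul] at h5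
    exact h5
  rw [h4]
  ring

theorem e_ee (x : ℝ) : e x = ee x := by
  unfold Pool.Agent.W928.MW.e Pool.Agent.H807R2.Dav.ee
  rfl

/-- geometric sum over an interval of integers inside `[1,N]` -/
theorem geo_int (N : ℕ) (a b : ℤ) (hsub : Icc a b ⊆ Icc 1 (N : ℤ)) (x y : ℝ) :
    ‖∑ n ∈ Icc a b, e (x * (n : ℝ) + y)‖ ≤ KK N x := by
  rcases lt_or_ge b a with h | h
  · rw [Finset.Icc_eq_empty (by omega), Finset.sum_empty, norm_zero]
    exact KK_nonneg (by positivity) _
  · have ha := Finset.mem_Icc.mp (hsub (Finset.mem_Icc.mpr ⟨le_refl a, h⟩))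
    have hb := Finset.mem_Icc.mp (hsub (Finset.mem_Icc.mpr ⟨h, le_refl b⟩))
    have h1 : ∑ n ∈ Icc a b, e (x * (n : ℝ) + y) =
        e y * ∑ m ∈ Ico a.toNat (b + 1).toNat, ee (m * x) := by
      rw [Finset.mul_sum]
      apply Finset.sum_nbij' (fun n : ℤ => n.toNat) (fun n : ℕ => (n : ℤ))
      · intro n hn
        rw [Finset.mem_Icc] at hn
        rw [Finset.mem_Ico]
        omega
      · intro n hn
        rw [Finset.mem_Ico] at hn
        rw [Finset.mem_Icc]
        omega
      · intro n hn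
        rw [Finset.mem_Icc] at hn
        exact Int.toNat_of_nonneg (by omega)
      · intro n _; simp
      · intro n hn
        rw [Finset.mem_Icc] at hn
        have h2 : ((n.toNat : ℕ) : ℤ) = n := Int.toNat_of_nonneg (by omega)
        have h3 : ((n.toNat : ℕ) : ℝ) = (n : ℝ) := by
          rw [← Int.cast_natCast, h2]
        rw [h3, ← e_ee, ← e_add]
        congr 1
        ring
    rw [h1, norm_mul, e_norm, one_mul]
    apply geo_bound _ _ (by omega)
    have h4 : (((b + 1).toNat : ℕ) : ℝ) = (b : ℝ) + 1 := by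
      have : (((b + 1).toNat : ℕ) : ℤ) = b + 1 := Int.toNat_of_nonneg (by omega)
      rw [← Int.cast_natCast, this]; push_cast; ring
    have h5 : ((a.toNat : ℕ) : ℝ) = (a : ℝ) := by
      have : ((a.toNat : ℕ) : ℤ) = a := Int.toNat_of_nonneg (by omega)
      rw [← Int.cast_natCast, this]
    rw [h4, h5]
    have h6 : (b : ℝ) ≤ N := by exact_mod_cast hb.2
    have h7 : (1 : ℝ) ≤ a := by exact_mod_cast ha.1
    linarith

theorem TT_le (k N : ℕ) (hk : 1 ≤ k) (t : ℝ) (l : List ℤ) (hl : l.length = k - 1) :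
    ‖TT k N t 0 l‖ ≤ KK N (((((k.factorial : ℤ) * l.prod) : ℤ) : ℝ) * t) := by
  obtain ⟨β, hβ⟩ := ph_lin k hk l hl
  obtain ⟨a, b, hab⟩ := AA_int N l
  unfold Pool.Agent.TH181.MW.TT
  rw [hab]
  have h1 : ∀ n ∈ Icc a b, e (t * ((ph (fun n => n ^ k) l n : ℤ) : ℝ) + 0 * ((ph (fun n => n) l n : ℤ) : ℝ)) =
      e ((((((k.factorial : ℤ) * l.prod) : ℤ) : ℝ) * t) * (n : ℝ) + t * β) := by
    intro n _
    rw [hβ]
    congr 1
    push_cast
    ring
  rw [Finset.sum_congr rfl h1]
  apply geo_int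
  rw [← hab]
  exact AA_sub N l

end Pool.Agent.TH181.MX
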