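import Pool.Agent.TH181.MX.Sum
import Pool.Agent.TH181.MW.Cov

/-! # Hausdorff dimension of the exceptional set of linear coefficients -/

set_option autoImplicit false

open Finset MeasureTheory

namespace Pool.Agent.TH181.MX

open Pool.Agent.W928.MW (e sm e_add e_norm e_sub_re e_cont sm_le ev_pow ev_log)
open Pool.Agent.TH181.MW (S_COV_t S_DIMG_t)

/-- admissible data for `t` at `M` -/
def Adm (t : ℝ) (M a q : ℕ) : Prop := 2 ≤ M ∧ 1 ≤ a ∧ a < q ∧ q ≤ M ∧ Nat.Coprime a q ∧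
  |t - (a : ℝ) / (q : ℝ)| ≤ 1 / (q : ℝ) ^ 2

noncomputable def Dl (k M q : ℕ) : ℝ := 1 / (q : ℝ) + 1 / (M : ℝ) + (q : ℝ) / (M : ℝ) ^ k

/-- the inequality of `H_k(η)` at the point `(t, x)` -/
def HoldsX (k : ℕ) (η ε C t x : ℝ) : Prop :=
  ∀ N : ℕ, 2 ≤ N → ∀ a q : ℕ, 1 ≤ a → a < q → q ≤ N → Nat.Coprime a q →
    |t - (a : ℝ) / (q : ℝ)| ≤ 1 / (q : ℝ) ^ 2 →
    ‖sm k N t x‖ ≤ C * (N : ℝ) ^ (1 + ε) *
      (1 / (q : ℝ) + 1 / (N : ℝ) + (q : ℝ) / (N : ℝ) ^ k) ^ η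

/-- bad linear coefficients at scale `2^i` -/
def BX (k : ℕ) (t η ε : ℝ) (j : ℤ) (i : ℕ) : Set ℝ :=
  {x : ℝ | x ∈ Set.Icc (j : ℝ) ((j : ℝ) + 1) ∧ ∃ M a q : ℕ, M ≤ 2 ^ i ∧ 2 ^ i ≤ 2 * M ∧ Adm t M a q ∧
    (M : ℝ) ^ (1 + ε) * (Dl k M q) ^ η < ‖sm k M t x‖}

/-- the moment hypothesis -/
def Mom (p k : ℕ) (c t : ℝ) : Prop := ∀ η : ℝ, 0 < η → ∃ C : ℝ, 0 < C ∧ ∀ N a q : ℕ, 1 ≤ N → 1 ≤ q → q ≤ N →
  Nat.Coprime a q → |t - (a : ℝ) / (q : ℝ)| ≤ 1 / (q : ℝ) ^ 2 →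
    MV k N t p (C * (N : ℝ) ^ ((p : ℝ) - 1 + η) * (1 / (q : ℝ) + 1 / (N : ℝ)) ^ c)

theorem Dl_le (k M q : ℕ) (hk : 1 ≤ k) (hM : 1 ≤ M) (hq : 1 ≤ q) (hqM : q ≤ M) : Dl k M q ≤ 3 := by
  have hM' : (1 : ℝ) ≤ M := by exact_mod_cast hM
  have hq' : (1 : ℝ) ≤ q := by exact_mod_cast hq
  have hqM' : (q : ℝ) ≤ M := by exact_mod_cast hqM
  unfold Dl
  have h1 : 1 / (q : ℝ) ≤ 1 := by rw [div_le_one (by linarith)]; exact hq'
  have h2 : 1 / (M : ℝ) ≤ 1 := by rw [div_le_one (by linarith)]; exact hM'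
  have h3 : (q : ℝ) / (M : ℝ) ^ k ≤ 1 := by
    rw [div_le_one (by positivity)]
    calc (q : ℝ) ≤ M := hqM'
      _ = (M : ℝ) ^ 1 := (pow_one _).symm
      _ ≤ (M : ℝ) ^ k := pow_le_pow_right₀ hM' hk
  linarith

theorem Dl_ge (k M q : ℕ) : 1 / (q : ℝ) + 1 / (M : ℝ) ≤ Dl k M q := by
  unfold Dl
  have : 0 ≤ (q : ℝ) / (M : ℝ) ^ k := by positivity
  linarith

/-- the least value of the main factor at the scale -/
theorem exists_min (k : ℕ) (t : ℝ) (X : ℕ) (hex : ∃ M a q : ℕ, M ≤ X ∧ X ≤ 2 * M ∧ Adm t M a q) :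
    ∃ M0 a0 q0 : ℕ, M0 ≤ X ∧ X ≤ 2 * M0 ∧ Adm t M0 a0 q0 ∧
      ∀ M a q : ℕ, M ≤ X → X ≤ 2 * M → Adm t M a q → Dl k M0 q0 ≤ Dl k M q := by
  classical
  set T : Finset (ℕ × ℕ × ℕ) := ((range (X + 1)) ×ˢ ((range (X + 1)) ×ˢ (range (X + 1)))).filter
    (fun z => z.1 ≤ X ∧ X ≤ 2 * z.1 ∧ Adm t z.1 z.2.1 z.2.2) with hT
  have hmem : ∀ M a q : ℕ, M ≤ X → X ≤ 2 * M → Adm t M a q → (M, a, q) ∈ T := by
    intro M a q h1 h2 h3
    rw [hT, Finset.mem_filter, Finset.mem_product, Finset.mem_product, Finset.mem_range, Finset.mem_range,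
      Finset.mem_range]
    have h3' := h3
    obtain ⟨_, _, g3, g4, _, _⟩ := h3'
    refine ⟨⟨by simp only; omega, by simp only; omega, by simp only; omega⟩, h1, h2, h3⟩
  obtain ⟨M, a, q, h1, h2, h3⟩ := hex
  obtain ⟨z, hz, hz2⟩ := Finset.exists_min_image T (fun z => Dl k z.1 z.2.2) ⟨(M, a, q), hmem M a q h1 h2 h3⟩
  rw [hT, Finset.mem_filter] at hz
  refine ⟨z.1, z.2.1, z.2.2, hz.2.1, hz.2.2.1, hz.2.2.2, ?_⟩
  intro M a q h1 h2 h3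
  exact hz2 (M, a, q) (hmem M a q h1 h2 h3)

theorem coverX (p k : ℕ) (c t η ε : ℝ) (hp : 1 ≤ p) (hk : 1 ≤ k) (hc : 0 ≤ c) (hη : 0 ≤ η) (hε : 0 < ε)
    (hJ : Mom p k c t) (ε' : ℝ) (hε' : 0 < ε') (j : ℤ) :
    ∃ i0 : ℕ, ∀ i : ℕ, i0 ≤ i → ∃ S : Finset ℝ,
      (S.card : ℝ) ≤ ((2 : ℝ) ^ i) ^ (max (p * η - c) 0 - p * ε + 3 * ε') ∧
      BX k t η ε j i ⊆ ⋃ x ∈ S, Set.Icc x (x + ((2 : ℝ) ^ i) ^ (-(1 : ℝ))) := by
  obtain ⟨C, hC0, hCJ⟩ := hJ ε' hε'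
  have hp0 : (0 : ℝ) < p := by exact_mod_cast hp
  set c1 : ℝ := 2 * (1 + 2 * Real.pi) with hc1
  have hc1' : 0 < c1 := by positivity
  obtain ⟨i1, h1⟩ := ev_log (ε' / p) (by positivity) 1
  obtain ⟨i3, h3⟩ := ev_pow ε' hε' (3 * C * c1 ^ p * ((2 : ℝ) ^ (1 + ε)) ^ p * 3 ^ c)
  refine ⟨i1 + i3, fun i hi => ?_⟩
  have g1 := h1 i (by omega)
  have g3 := h3 i (by omega)
  set X : ℝ := (2 : ℝ) ^ i with hX
  have hX1 : (1 : ℝ) ≤ X := one_le_pow₀ (by norm_num)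
  have hX0 : (0 : ℝ) < X := by positivity
  have hNX : (((2 ^ i : ℕ) : ℕ) : ℝ) = X := by push_cast; rfl
  by_cases hex : ∃ M a q : ℕ, M ≤ 2 ^ i ∧ 2 ^ i ≤ 2 * M ∧ Adm t M a q
  swap
  · refine ⟨∅, by simp only [Finset.card_empty, Nat.cast_zero]; positivity, ?_⟩
    rintro x ⟨_, M, a, q, g4, g5, g6, _⟩
    exact absurd ⟨M, a, q, g4, g5, g6⟩ hex
  obtain ⟨M0, a0, q0, hM0, hM0', hadm, hmin⟩ := exists_min k t (2 ^ i) hex
  obtain ⟨b1, b2, b3, b4, b5, b6⟩ := hadm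
  have hM0r : (1 : ℝ) ≤ M0 := by
    have : 1 ≤ M0 := by omega
    exact_mod_cast this
  have hM0X : (M0 : ℝ) ≤ X := by rw [← hNX]; exact_mod_cast hM0
  have hq0 : (1 : ℝ) ≤ q0 := by
    have : 1 ≤ q0 := by omega
    exact_mod_cast this
  set D0 : ℝ := Dl k M0 q0 with hD0
  have hD0X : 1 / X ≤ D0 := by
    have h4 := Dl_ge k M0 q0
    have h5 : 1 / X ≤ 1 / (M0 : ℝ) := one_div_le_one_div_of_le (by linarith) hM0X
    have h6 : (0 : ℝ) ≤ 1 / (q0 : ℝ) := by positivity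
    rw [hD0]; linarith
  have hD0pos : 0 < D0 := lt_of_lt_of_le (by positivity) hD0X
  have hD03 : D0 ≤ 3 := Dl_le k M0 q0 hk (by omega) (by omega) b4
  set lam0 : ℝ := (X / 2) ^ (1 + ε) * D0 ^ η with hlam0
  have hlam0' : 0 < lam0 := by positivity
  set μ : ℝ := lam0 / c1 with hμ
  have hμ0 : 0 < μ := by positivity
  set δ : ℝ := X ^ (-(1 : ℝ)) with hδ
  have hδ' : δ = 1 / X := by rw [hδ, Real.rpow_neg_one, one_div]
  have hδ0 : 0 < δ := by positivity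
  have hδ1 : δ ≤ 1 := by
    rw [hδ', div_le_one hX0]; exact hX1
  set F : Set ℝ := {x : ℝ | x ∈ Set.Icc (((j - 1 : ℤ)) : ℝ) (((j + 2 : ℤ)) : ℝ) ∧
    ∃ m : ℕ, m ≤ 2 ^ i ∧ μ ≤ ‖sm k m t x‖} with hF
  have key2 : ∀ x ∈ BX k t η ε j i, ∀ x' : ℝ, |x' - x| ≤ δ → x' ∈ F := by
    rintro x ⟨hx1, M, a, q, hM1, hM2, hA, hlt⟩ x' hxx
    have hxx' := abs_le.mp hxx
    refine ⟨⟨by push_cast; linarith [hx1.1, hxx'.1], by push_cast; linarith [hx1.2, hxx'.2]⟩, ?_⟩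
    by_contra hcon
    push Not at hcon
    have h5 := shift_xi k (2 ^ i) M t x x' μ Nat.one_le_two_pow hM1 hμ0.le
      (by rw [hNX, ← hδ', abs_sub_comm]; exact hxx) (fun m hm => (hcon m hm).le)
    have h6 : X / 2 ≤ (M : ℝ) := by
      have : ((2 ^ i : ℕ) : ℝ) ≤ ((2 * M : ℕ) : ℝ) := by exact_mod_cast hM2
      rw [hNX] at this
      push_cast at this
      linarith
    have h7 : lam0 ≤ (M : ℝ) ^ (1 + ε) * (Dl k M q) ^ η := by
      rw [hlam0]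
      apply mul_le_mul _ _ (by positivity) (by positivity)
      · exact Real.rpow_le_rpow (by positivity) h6 (by linarith)
      · exact Real.rpow_le_rpow hD0pos.le (hmin M a q hM1 hM2 hA) hη
    have h8 : (1 + 2 * Real.pi) * μ = lam0 / 2 := by
      rw [hμ, hc1]; field_simp
    rw [h8] at h5
    linarith
  -- measure of F
  have hcop : Nat.Coprime a0 q0 := b5
  have hMV := hCJ (2 ^ i) a0 q0 Nat.one_le_two_pow (by omega) (b4.trans hM0) hcop b6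
  have h5 := meas_max k (2 ^ i) t p _ Nat.one_le_two_pow hMV (j - 1) (j + 2) μ (by omega) hμ0
  rw [hNX] at h5
  have hlog0 : 0 ≤ Real.log X := Real.log_nonneg hX1
  have hLp : (2 + Real.log X) ^ p ≤ X ^ ε' := by
    have h6 : 2 + Real.log X ≤ X ^ (ε' / p) := by
      rw [one_mul] at g1
      linarith
    calc (2 + Real.log X) ^ p ≤ (X ^ (ε' / p)) ^ p := pow_le_pow_left₀ (by linarith) h6 p
      _ = X ^ ε' := by
          rw [← Real.rpow_natCast, ← Real.rpow_mul hX0.le]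
          congr 1
          field_simp
  have hΔc : (1 / (q0 : ℝ) + 1 / X) ^ c ≤ D0 ^ c := by
    apply Real.rpow_le_rpow (by positivity) _ hc
    have h4 := Dl_ge k M0 q0
    have h5 : 1 / X ≤ 1 / (M0 : ℝ) := one_div_le_one_div_of_le (by linarith) hM0X
    rw [hD0]; linarith
  set V : ℝ := 3 * C * (X ^ ε' * (X ^ ((p : ℝ) - 1 + ε') * D0 ^ c)) / μ ^ p with hV
  have h6 : volume F ≤ ENNReal.ofReal V := by
    refine h5.trans (ENNReal.ofReal_le_ofReal ?_)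
    rw [hV]
    apply div_le_div_of_nonneg_right _ (by positivity)
    have a0 : (((j + 2 : ℤ)) : ℝ) - (((j - 1 : ℤ)) : ℝ) = 3 := by push_cast; ring
    rw [a0]
    calc 3 * ((2 + Real.log X) ^ p * (C * X ^ ((p : ℝ) - 1 + ε') * (1 / (q0 : ℝ) + 1 / X) ^ c))
        ≤ 3 * (X ^ ε' * (C * X ^ ((p : ℝ) - 1 + ε') * D0 ^ c)) := by
          gcongr
      _ = _ := by ring
  obtain ⟨S, hS1, hS2⟩ := S_COV_t (BX k t η ε j i) F δ V (j : ℝ) ((j : ℝ) + 1) hδ0 (by positivity)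
    (fun x hx => hx.1) key2 h6
  refine ⟨S, hS1.trans ?_, hS2⟩
  -- the count
  have h7 : D0 ^ (c - p * η) ≤ 3 ^ c * X ^ (max (p * η - c) 0) := by
    rcases le_total (p * η - c) 0 with h8 | h8
    · rw [max_eq_right h8, Real.rpow_zero, mul_one]
      calc D0 ^ (c - p * η) ≤ 3 ^ (c - p * η) := Real.rpow_le_rpow hD0pos.le hD03 (by linarith)
        _ ≤ 3 ^ c := by
            apply Real.rpow_le_rpow_of_exponent_le (by norm_num)
            have : 0 ≤ (p : ℝ) * η := by positivity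
            linarith
    · rw [max_eq_left h8]
      have h9 : D0 ^ (c - p * η) ≤ (1 / X) ^ (c - p * η) :=
        Real.rpow_le_rpow_of_nonpos (by positivity) hD0X (by linarith)
      have h10 : (1 / X) ^ (c - p * η) = X ^ (p * η - c) := by
        rw [one_div, Real.inv_rpow hX0.le, ← Real.rpow_neg hX0.le]
        congr 1; ring
      rw [h10] at h9
      have h11 : (1 : ℝ) ≤ 3 ^ c := Real.one_le_rpow (by norm_num) hc
      have h12 : 0 ≤ X ^ (p * η - c) := by positivity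
      nlinarith
  have h8 : V / δ = (3 * C * c1 ^ p * ((2 : ℝ) ^ (1 + ε)) ^ p) * D0 ^ (c - p * η) *
      X ^ (-(p * ε) + 2 * ε') := by
    have e1 : μ ^ p = X ^ (p * (1 + ε)) * D0 ^ (p * η) / (c1 ^ p * ((2 : ℝ) ^ (1 + ε)) ^ p) := by
      rw [hμ, div_pow, hlam0, mul_pow, Real.div_rpow hX0.le (by norm_num), div_pow,
        ← Real.rpow_natCast (X ^ (1 + ε)) p, ← Real.rpow_mul hX0.le, ← Real.rpow_natCast (D0 ^ η) p,
        ← Real.rpow_mul hD0pos.le]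
      have f1 : (1 + ε) * (p : ℝ) = p * (1 + ε) := by ring
      have f2 : η * (p : ℝ) = p * η := by ring
      rw [f1, f2]
      field_simp
    have e2 : D0 ^ (c - p * η) = D0 ^ c / D0 ^ (p * η) := Real.rpow_sub hD0pos _ _
    have e3 : X ^ (-(p * ε) + 2 * ε') = X ^ ε' * X ^ ((p : ℝ) - 1 + ε') * X / X ^ (p * (1 + ε)) := by
      have f1 : X ^ ε' * X ^ ((p : ℝ) - 1 + ε') * X = X ^ (ε' + ((p : ℝ) - 1 + ε') + 1) := by
        rw [Real.rpow_add hX0 (ε' + ((p : ℝ) - 1 + ε')) 1, Real.rpow_add hX0 ε' ((p : ℝ) - 1 + ε'), Real.rpow_one]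
      rw [f1, ← Real.rpow_sub hX0]
      congr 1
      ring
    rw [hV, e1, e2, e3, hδ']
    field_simp
  rw [h8]
  have h9 : X ^ (max (p * η - c) 0 - p * ε + 3 * ε') = X ^ ε' * (X ^ (max (p * η - c) 0) * X ^ (-(p * ε) + 2 * ε')) := by
    rw [← Real.rpow_add hX0, ← Real.rpow_add hX0]
    congr 1
    ring
  rw [h9]
  calc (3 * C * c1 ^ p * ((2 : ℝ) ^ (1 + ε)) ^ p) * D0 ^ (c - p * η) * X ^ (-(p * ε) + 2 * ε')
      ≤ (3 * C * c1 ^ p * ((2 : ℝ) ^ (1 + ε)) ^ p) * (3 ^ c * X ^ (max (p * η - c) 0)) * X ^ (-(p * ε) + 2 * ε') := by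
        gcongr
    _ = (3 * C * c1 ^ p * ((2 : ℝ) ^ (1 + ε)) ^ p * 3 ^ c) * (X ^ (max (p * η - c) 0) * X ^ (-(p * ε) + 2 * ε')) := by
        ring
    _ ≤ X ^ ε' * (X ^ (max (p * η - c) 0) * X ^ (-(p * ε) + 2 * ε')) :=
        mul_le_mul_of_nonneg_right g3 (by positivity)

theorem main_geX (k N q : ℕ) (η ε : ℝ) (hη : 0 ≤ η) (hη1 : η ≤ 1) (hε : 0 ≤ ε) (hN : 1 ≤ N) :
    1 ≤ (N : ℝ) ^ (1 + ε) * (1 / (q : ℝ) + 1 / (N : ℝ) + (q : ℝ) / (N : ℝ) ^ k) ^ η := by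
  have hN' : (1 : ℝ) ≤ (N : ℝ) := by exact_mod_cast hN
  have h1 : (N : ℝ) ^ (1 - η + ε) = (N : ℝ) ^ (1 + ε) * (1 / (N : ℝ)) ^ η := by
    rw [Real.div_rpow (by norm_num) (by positivity), Real.one_rpow, mul_one_div, ← Real.rpow_sub (by positivity)]
    congr 1
    ring
  have h3 : 1 ≤ (N : ℝ) ^ (1 - η + ε) := Real.one_le_rpow hN' (by linarith)
  rw [h1] at h3
  refine h3.trans ?_
  apply mul_le_mul_of_nonneg_left _ (by positivity)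
  apply Real.rpow_le_rpow (by positivity) _ hη
  have h2 : 0 ≤ 1 / (q : ℝ) + (q : ℝ) / (N : ℝ) ^ k := by positivity
  linarith

theorem bad_subX (k : ℕ) (t η ε : ℝ) (hη : 0 ≤ η) (hη1 : η ≤ 1) (hε : 0 ≤ ε) (x : ℝ)
    (hx : ¬ ∃ C : ℝ, HoldsX k η ε C t x) : ∀ i1 : ℕ, ∃ i : ℕ, i1 ≤ i ∧ x ∈ BX k t η ε ⌊x⌋ i := by
  intro i1
  by_contra hcon
  push Not at hcon
  apply hx
  refine ⟨(2 : ℝ) ^ i1 + 1, ?_⟩
  intro N hN2' a q ha haq hqN hcop hap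
  have hN : 1 ≤ N := by omega
  have hN' : (1 : ℝ) ≤ (N : ℝ) := by exact_mod_cast hN
  set R : ℝ := (N : ℝ) ^ (1 + ε) *
      (1 / (q : ℝ) + 1 / (N : ℝ) + (q : ℝ) / (N : ℝ) ^ k) ^ η with hR
  have h1 : 1 ≤ R := main_geX k N q η ε hη hη1 hε hN
  have h3 : ((2 : ℝ) ^ i1 + 1) * (N : ℝ) ^ (1 + ε) *
      (1 / (q : ℝ) + 1 / (N : ℝ) + (q : ℝ) / (N : ℝ) ^ k) ^ η = ((2 : ℝ) ^ i1 + 1) * R := by
    rw [hR]; ring
  rw [h3]
  have hp : (0 : ℝ) < (2 : ℝ) ^ i1 := by positivity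
  rcases le_total N (2 ^ i1) with hN2 | hN2
  · have h4 : (N : ℝ) ≤ (2 : ℝ) ^ i1 := by exact_mod_cast hN2
    refine (sm_le k N t x).trans ?_
    nlinarith
  · obtain ⟨i, hi1, hi2⟩ : ∃ i : ℕ, N ≤ 2 ^ i ∧ 2 ^ i ≤ 2 * N := by
      refine ⟨Nat.log 2 N + 1, (Nat.lt_pow_succ_log_self (by norm_num) N).le, ?_⟩
      have := Nat.pow_log_le_self 2 (show N ≠ 0 by omega)
      rw [pow_succ]
      omega
    have hii : i1 ≤ i := by
      have : 2 ^ i1 ≤ 2 ^ i := hN2.trans hi1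
      exact (Nat.pow_le_pow_iff_right (by norm_num)).mp this
    have h5 := hcon i hii
    have h6 : ‖sm k N t x‖ ≤ R := by
      by_contra h7
      push Not at h7
      apply h5
      refine ⟨⟨Int.floor_le x, (Int.lt_floor_add_one x).le⟩, N, a, q, hi1, hi2,
        ⟨hN2', ha, haq, hqN, hcop, hap⟩, ?_⟩
      unfold Dl
      exact h7
    nlinarith

theorem dim_genX (p k : ℕ) (c t η ε : ℝ) (hp : 1 ≤ p) (hk : 1 ≤ k) (hc : 0 ≤ c) (hη : 0 ≤ η) (hη1 : η ≤ 1)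
    (hε : 0 < ε) (hJ : Mom p k c t) :
    dimH {x : ℝ | ¬ ∃ C : ℝ, HoldsX k η ε C t x} ≤ ENNReal.ofReal (p * (η - ε) - c) := by
  set A : ℝ := max (p * η - c) 0 - p * ε with hA
  have hp0 : (0 : ℝ) < p := by exact_mod_cast hp
  have hsub : {x : ℝ | ¬ ∃ C : ℝ, HoldsX k η ε C t x} ⊆
      ⋃ j : ℤ, {x : ℝ | ∀ i1 : ℕ, ∃ i : ℕ, i1 ≤ i ∧ x ∈ BX k t η ε j i} := by
    intro x hx
    rw [Set.mem_iUnion]
    exact ⟨⌊x⌋, bad_subX k t η ε hη hη1 hε.le x hx⟩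
  have hfin : ENNReal.ofReal (max A 0) ≤ ENNReal.ofReal (p * (η - ε) - c) := by
    rcases le_total (p * η - c) 0 with h8 | h8
    · have h9 : max A 0 = 0 := by
        rw [hA, max_eq_right h8]
        apply max_eq_right
        have : 0 < (p : ℝ) * ε := by positivity
        linarith
      rw [h9, ENNReal.ofReal_zero]
      exact zero_le
    · have h9 : A = p * (η - ε) - c := by
        rw [hA, max_eq_left h8]; ring
      rw [h9, ENNReal.ofReal_max, ENNReal.ofReal_zero, max_eq_left zero_le]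
  refine le_trans ?_ hfin
  refine (dimH_mono hsub).trans ?_
  rw [dimH_iUnion]
  apply iSup_le
  intro j
  apply ENNReal.le_of_forall_pos_le_add
  intro ρ hρ _
  have hρ' : (0 : ℝ) < (ρ : ℝ) := by exact_mod_cast hρ
  set D : ℝ := max A 0 + ρ with hD
  have hD0 : 0 < D := by
    have := le_max_right A 0
    rw [hD]; linarith
  set ε' : ℝ := ρ / 6 with hε'def
  have hε' : 0 < ε' := by positivity
  have h1 := S_DIMG_t (A + 3 * ε') 1 D (BX k t η ε j) one_pos hD0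
    (by
      have := le_max_left A 0
      rw [hε'def, hD]
      linarith)
    (coverX p k c t η ε hp hk hc hη hε hJ ε' hε' j)
  refine h1.trans (le_of_eq ?_)
  rw [hD, ENNReal.ofReal_add (le_max_right _ _) hρ'.le, ENNReal.ofReal_coe_nnreal]

theorem mom_two (k : ℕ) (t : ℝ) : Mom 2 k 0 t := by
  intro η hη
  refine ⟨1, one_pos, fun N a q hN hq hqN _ _ => ?_⟩
  intro u v c huv
  have huv' : (u : ℝ) ≤ (v : ℝ) := by exact_mod_cast huv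
  refine (mv_two k N t u v c huv).trans ?_
  apply mul_le_mul_of_nonneg_left _ (by linarith)
  have hN' : (1 : ℝ) ≤ (N : ℝ) := by exact_mod_cast hN
  rw [Real.rpow_zero, mul_one, one_mul]
  calc (N : ℝ) = (N : ℝ) ^ (1 : ℝ) := (Real.rpow_one _).symm
    _ ≤ (N : ℝ) ^ (((2 : ℕ) : ℝ) - 1 + η) := by
        apply Real.rpow_le_rpow_of_exponent_le hN'
        push_cast
        linarith

theorem mom_four (k : ℕ) (hk : 3 ≤ k) (t : ℝ) : Mom 4 k (8 / (2 : ℝ) ^ k) t := by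
  intro η hη
  obtain ⟨C, hC, h⟩ := fourth k hk η hη
  refine ⟨C, hC, fun N a q hN hq hqN hcop hap => ?_⟩
  have h1 := h N q hN hq hqN (a : ℤ) t (Nat.isCoprime_iff_coprime.mpr hcop) (by push_cast; exact hap)
  have h2 : ((4 : ℕ) : ℝ) - 1 + η = 3 + η := by push_cast; ring
  rw [h2]
  exact h1

/-- for every leading coefficient -/
theorem dim_every (k : ℕ) (hk : 3 ≤ k) (t η ε : ℝ) (hη : 0 ≤ η) (hη1 : η ≤ 1) (hε : 0 < ε) :
    dimH {x : ℝ | ¬ ∃ C : ℝ, HoldsX k η ε C t x} ≤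
      ENNReal.ofReal (min (2 * (η - ε)) (4 * (η - ε) - 8 / 2 ^ k)) := by
  rw [ENNReal.ofReal_min]
  apply le_min
  · have := dim_genX 2 k 0 t η ε (by norm_num) (by omega) le_rfl hη hη1 hε (mom_two k t)
    rw [sub_zero] at this
    exact_mod_cast this
  · have := dim_genX 4 k (8 / (2 : ℝ) ^ k) t η ε (by norm_num) (by omega) (by positivity) hη hη1 hε (mom_four k hk t)
    exact_mod_cast this

end Pool.Agent.TH181.MX
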