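import Pool.Agent.TH181.MW.Max
import Pool.Agent.TH181.MW.Mom

/-! # mean values over the linear coefficient -/

set_option autoImplicit false

open Finset MeasureTheory

namespace Pool.Agent.TH181.MX

open Pool.Agent.W928.MW (e sm e_add e_norm e_sub_re e_cont sm_le e_lip)
open Pool.Agent.TH181.MW (e_zero e_eq sum_Icc_range geom_le orth harm_sum sm_form)

theorem e_conj (x : ℝ) : (starRingEnd ℂ) (e x) = e (-x) := by
  unfold Pool.Agent.W928.MW.e
  rw [← Complex.exp_conj]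
  congr 1
  simp only [map_mul, Complex.conj_ofReal, Complex.conj_I, map_ofNat]
  push_cast
  ring

theorem int_e (u v : ℤ) (n : ℤ) : ∫ x in (u : ℝ)..(v : ℝ), e (x * (n : ℝ)) =
    if n = 0 then ((v : ℂ) - u) else 0 := by
  split_ifs with h
  · subst h
    simp only [Int.cast_zero, mul_zero, e_zero, intervalIntegral.integral_const]
    rw [Complex.real_smul]
    push_cast; ring
  · have hn : (n : ℂ) ≠ 0 := by exact_mod_cast h
    have hc : (2 * (Real.pi : ℂ) * Complex.I * (n : ℂ)) ≠ 0 := by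
      have := Complex.two_pi_I_ne_zero
      exact mul_ne_zero this hn
    have h1 : ∀ x : ℝ, e (x * (n : ℝ)) = Complex.exp ((2 * (Real.pi : ℂ) * Complex.I * (n : ℂ)) * (x : ℂ)) := by
      intro x
      unfold Pool.Agent.W928.MW.e
      congr 1
      push_cast
      ring
    simp_rw [h1]
    rw [integral_exp_mul_complex hc]
    have h2 : ∀ w : ℤ, Complex.exp ((2 * (Real.pi : ℂ) * Complex.I * (n : ℂ)) * ((w : ℝ) : ℂ)) = 1 := by
      intro w
      have : (2 * (Real.pi : ℂ) * Complex.I * (n : ℂ)) * ((w : ℝ) : ℂ) = ((n * w : ℤ) : ℂ) * (2 * (Real.pi : ℂ) * Complex.I) := by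
        push_cast; ring
      rw [this]
      exact Complex.exp_int_mul_two_pi_mul_I _
    rw [h2, h2, sub_self, zero_div]

/-- Parseval on an interval with integer endpoints -/
theorem parseval {ι : Type} (S : Finset ι) (m : ι → ℤ) (hm : Set.InjOn m S) (a : ι → ℂ) (u v : ℤ) :
    ∫ x in (u : ℝ)..(v : ℝ), ‖∑ i ∈ S, e (x * (m i : ℝ)) * a i‖ ^ 2 = ((v : ℝ) - u) * ∑ i ∈ S, ‖a i‖ ^ 2 := by
  classical
  have h1 : ∀ x : ℝ, ((‖∑ i ∈ S, e (x * (m i : ℝ)) * a i‖ ^ 2 : ℝ) : ℂ) =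
      ∑ z ∈ S ×ˢ S, e (x * ((m z.1 - m z.2 : ℤ) : ℝ)) * (a z.1 * (starRingEnd ℂ) (a z.2)) := by
    intro x
    have h2 : ((‖∑ i ∈ S, e (x * (m i : ℝ)) * a i‖ ^ 2 : ℝ) : ℂ) = (∑ i ∈ S, e (x * (m i : ℝ)) * a i) *
        (starRingEnd ℂ) (∑ i ∈ S, e (x * (m i : ℝ)) * a i) := by
      rw [Complex.mul_conj, Complex.normSq_eq_norm_sq]
    rw [h2, map_sum, Finset.sum_mul_sum, ← Finset.sum_product']
    apply Finset.sum_congr rfl
    intro z _
    rw [map_mul, e_conj]
    have : e (x * ((m z.1 - m z.2 : ℤ) : ℝ)) = e (x * (m z.1 : ℝ)) * e (-(x * (m z.2 : ℝ))) := by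
      rw [← e_add]; congr 1; push_cast; ring
    rw [this]; ring
  have h3 : ((∫ x in (u : ℝ)..(v : ℝ), ‖∑ i ∈ S, e (x * (m i : ℝ)) * a i‖ ^ 2 : ℝ) : ℂ) =
      (((v : ℝ) - u) * ∑ i ∈ S, ‖a i‖ ^ 2 : ℝ) := by
    rw [← intervalIntegral.integral_ofReal]
    simp_rw [h1]
    rw [intervalIntegral.integral_finsetSum]
    · have h4 : ∀ z ∈ S ×ˢ S, ∫ x in (u : ℝ)..(v : ℝ), e (x * ((m z.1 - m z.2 : ℤ) : ℝ)) * (a z.1 * (starRingEnd ℂ) (a z.2)) =
          if z.1 = z.2 then ((v : ℂ) - u) * (a z.1 * (starRingEnd ℂ) (a z.2)) else 0 := by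
        intro z hz
        rw [Finset.mem_product] at hz
        rw [intervalIntegral.integral_mul_const, int_e]
        by_cases h5 : z.1 = z.2
        · rw [if_pos h5, if_pos (by rw [h5, sub_self])]
        · rw [if_neg h5, if_neg, zero_mul]
          intro h6
          exact h5 (hm hz.1 hz.2 (sub_eq_zero.mp h6))
      rw [Finset.sum_congr rfl h4, Finset.sum_product]
      simp only [Finset.sum_ite_eq]
      push_cast
      rw [Finset.mul_sum]
      apply Finset.sum_congr rfl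
      intro i hi
      rw [if_pos hi, Complex.mul_conj, Complex.normSq_eq_norm_sq]
      push_cast
      rfl
    · intro z _
      apply Continuous.intervalIntegrable
      refine Continuous.mul ?_ continuous_const
      exact e_cont.comp (by fun_prop)
  exact_mod_cast h3

/-- mean value of order `p` over the linear coefficient, with any shift -/
def MV (k N : ℕ) (t : ℝ) (p : ℕ) (K : ℝ) : Prop := ∀ (u v : ℤ) (c : ℝ), u ≤ v →
  ∫ x in (u : ℝ)..(v : ℝ), ‖sm k N t (x + c)‖ ^ p ≤ ((v : ℝ) - u) * K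

theorem mv_two (k N : ℕ) (t : ℝ) : MV k N t 2 N := by
  intro u v c _
  have h1 : ∀ x : ℝ, sm k N t (x + c) = ∑ n ∈ Icc 1 N, e (x * (((n : ℕ) : ℤ) : ℝ)) * e (t * (n : ℝ) ^ k + c * n) := by
    intro x
    unfold Pool.Agent.W928.MW.sm
    apply Finset.sum_congr rfl
    intro n _
    rw [← e_add]
    congr 1
    push_cast
    ring
  simp_rw [h1]
  rw [parseval (Icc 1 N) (fun n : ℕ => (n : ℤ)) (fun a _ b _ h => by simpa using h)]
  apply le_of_eq
  congr 1
  simp [e_norm]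

/-- weights of the maximal inequality -/
noncomputable def wt (N b : ℕ) : ℝ := if b = 0 then 1 else (1 / 2 : ℝ) * (1 / ((b : ℝ) / N) + 1 / (1 - (b : ℝ) / N)) / N

theorem wt_nonneg (N b : ℕ) (hb : b < N) : 0 ≤ wt N b := by
  unfold wt
  split_ifs with h
  · norm_num
  · have hN0 : (0 : ℝ) < N := by
      have : 0 < N := by omega
      exact_mod_cast this
    have hb1 : (b : ℝ) < N := by exact_mod_cast hb
    have h1 : 0 < 1 - (b : ℝ) / N := by
      rw [sub_pos, div_lt_one hN0]; exact hb1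
    positivity

theorem wt_sum (N : ℕ) (hN : 1 ≤ N) : ∑ b ∈ range N, wt N b ≤ 2 + Real.log N := by
  have hN0 : (0 : ℝ) < N := by exact_mod_cast hN
  rw [Finset.range_eq_Ico, Finset.sum_eq_sum_Ico_succ_bot (by omega)]
  have h1 : ∑ b ∈ Ico (0 + 1) N, wt N b = (∑ b ∈ Ico 1 N, (1 / 2 : ℝ) * (1 / ((b : ℝ) / N) + 1 / (1 - (b : ℝ) / N))) / N := by
    rw [Finset.sum_div]
    apply Finset.sum_congr rfl
    intro b hb
    rw [Finset.mem_Ico] at hb
    unfold wt
    rw [if_neg (by omega)]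
  have h2 : wt N 0 = 1 := by unfold wt; simp
  rw [h1, h2]
  have h3 := harm_sum N hN
  have h4 : (∑ b ∈ Ico 1 N, (1 / 2 : ℝ) * (1 / ((b : ℝ) / N) + 1 / (1 - (b : ℝ) / N))) / N ≤ 1 + Real.log N := by
    rw [div_le_iff₀ hN0]; linarith
  linarith

/-- pointwise maximal inequality -/
theorem max_pt (N M : ℕ) (hN : 1 ≤ N) (hM : M ≤ N) (c : ℕ → ℂ) (ξ : ℝ) :
    ‖∑ n ∈ Icc 1 M, c n * e (ξ * n)‖ ≤ ∑ b ∈ range N, wt N b * ‖∑ n ∈ Icc 1 N, c n * e ((ξ + b / N) * n)‖ := by
  have hN0 : (0 : ℝ) < N := by exact_mod_cast hN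
  have h1 : (N : ℂ) * ∑ n ∈ Icc 1 M, c n * e (ξ * n) =
      ∑ b ∈ range N, (∑ m ∈ Icc 1 M, e (-((b : ℝ) / N) * m)) * (∑ n ∈ Icc 1 N, c n * e ((ξ + b / N) * n)) := by
    have h2 : ∀ b ∈ range N, (∑ m ∈ Icc 1 M, e (-((b : ℝ) / N) * m)) *
        (∑ n ∈ Icc 1 N, c n * e ((ξ + b / N) * n)) =
        ∑ n ∈ Icc 1 N, ∑ m ∈ Icc 1 M, (c n * e (ξ * n)) * e (((n : ℝ) - m) / N * b) := by
      intro b _
      rw [Finset.sum_mul_sum, Finset.sum_comm]
      apply Finset.sum_congr rfl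
      intro n _
      apply Finset.sum_congr rfl
      intro m _
      have : e (-((b : ℝ) / N) * m) * (c n * e ((ξ + b / N) * n)) =
          c n * (e (-((b : ℝ) / N) * m) * e ((ξ + b / N) * n)) := by ring
      rw [this, ← e_add, mul_assoc, ← e_add]
      congr 2
      field_simp
      ring
    rw [Finset.sum_congr rfl h2, Finset.sum_comm]
    have h3 : ∀ n ∈ Icc 1 N, ∑ b ∈ range N, ∑ m ∈ Icc 1 M, (c n * e (ξ * n)) * e (((n : ℝ) - m) / N * b) =
        if n ∈ Icc 1 M then (c n * e (ξ * n)) * (N : ℂ) else 0 := by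
      intro n hn
      rw [Finset.sum_comm]
      have h4 : ∀ m ∈ Icc 1 M, ∑ b ∈ range N, (c n * e (ξ * n)) * e (((n : ℝ) - m) / N * b) =
          if m = n then (c n * e (ξ * n)) * (N : ℂ) else 0 := by
        intro m hm
        rw [← Finset.mul_sum, orth N hN n m hn]
        · split_ifs <;> simp
        · rw [Finset.mem_Icc] at hm ⊢; omega
      rw [Finset.sum_congr rfl h4, Finset.sum_ite_eq']
    rw [Finset.sum_congr rfl h3, ← Finset.sum_filter]
    have h5 : (Icc 1 N).filter (fun n => n ∈ Icc 1 M) = Icc 1 M := by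
      ext n
      rw [Finset.mem_filter, Finset.mem_Icc, Finset.mem_Icc]
      omega
    rw [h5, ← Finset.sum_mul]
    ring
  have h2 : (N : ℝ) * ‖∑ n ∈ Icc 1 M, c n * e (ξ * n)‖ ≤
      N * ∑ b ∈ range N, wt N b * ‖∑ n ∈ Icc 1 N, c n * e ((ξ + b / N) * n)‖ := by
    have h3 : (N : ℝ) * ‖∑ n ∈ Icc 1 M, c n * e (ξ * n)‖ = ‖(N : ℂ) * ∑ n ∈ Icc 1 M, c n * e (ξ * n)‖ := by
      rw [norm_mul, Complex.norm_natCast]
    rw [h3, h1, Finset.mul_sum]
    refine (norm_sum_le _ _).trans ?_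
    apply Finset.sum_le_sum
    intro b hb
    rw [norm_mul, ← mul_assoc]
    apply mul_le_mul_of_nonneg_right _ (norm_nonneg _)
    rw [Finset.mem_range] at hb
    unfold wt
    split_ifs with hb0
    · subst hb0
      refine (norm_sum_le _ _).trans ?_
      simp only [e_norm]
      rw [Finset.sum_const, Nat.card_Icc, Nat.add_sub_cancel, nsmul_eq_mul, mul_one, mul_one]
      exact_mod_cast hM
    · have hb0' : (0 : ℝ) < b := by
        have : 0 < b := by omega
        exact_mod_cast this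
      have hb1 : (b : ℝ) < N := by exact_mod_cast hb
      have h5 := geom_le ((b : ℝ) / N) (by positivity) (by rw [div_lt_one hN0]; exact hb1) M
      rw [mul_div_cancel₀ _ hN0.ne']
      exact h5
  exact le_of_mul_le_mul_left h2 hN0

/-- passing from `ξ` to a point at distance `1/N` -/
theorem shift_xi (k N M : ℕ) (t ξ ξ' B : ℝ) (hN : 1 ≤ N) (hM : M ≤ N) (hB : 0 ≤ B)
    (htt : |ξ - ξ'| ≤ 1 / (N : ℝ))
    (h : ∀ m : ℕ, m ≤ N → ‖sm k m t ξ'‖ ≤ B) : ‖sm k M t ξ‖ ≤ (1 + 2 * Real.pi) * B := by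
  have hN' : (1 : ℝ) ≤ N := by exact_mod_cast hN
  have hN0 : (0 : ℝ) < N := by linarith
  have h1 : sm k M t ξ = ∑ x ∈ range M, e ((ξ - ξ') * ((x + 1 : ℕ) : ℝ)) *
      e (t * ((x + 1 : ℕ) : ℝ) ^ k + ξ' * ((x + 1 : ℕ) : ℝ)) := by
    unfold Pool.Agent.W928.MW.sm
    rw [sum_Icc_range]
    apply Finset.sum_congr rfl
    intro x _
    rw [← e_add]
    congr 1
    ring
  have h2 := Pool.Agent.H520R3.abel_bound (fun x : ℕ => e ((ξ - ξ') * ((x + 1 : ℕ) : ℝ)))
    (fun x : ℕ => e (t * ((x + 1 : ℕ) : ℝ) ^ k + ξ' * ((x + 1 : ℕ) : ℝ))) B (2 * Real.pi) hB M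
    (by
      intro X hX
      have h3 := h X (hX.trans hM)
      unfold Pool.Agent.W928.MW.sm at h3
      rwa [sum_Icc_range] at h3)
    (fun x => (e_norm _).le)
    (by
      have h4 : ∀ x ∈ range M, ‖e ((ξ - ξ') * ((x + 1 + 1 : ℕ) : ℝ)) - e ((ξ - ξ') * ((x + 1 : ℕ) : ℝ))‖ ≤
          2 * Real.pi * |ξ - ξ'| := by
        intro x _
        refine (e_lip _ _).trans (le_of_eq ?_)
        rw [← mul_sub]
        congr 2
        push_cast
        ring
      refine (Finset.sum_le_sum h4).trans ?_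
      rw [Finset.sum_const, Finset.card_range, nsmul_eq_mul]
      have hM' : (M : ℝ) ≤ N := by exact_mod_cast hM
      calc (M : ℝ) * (2 * Real.pi * |ξ - ξ'|) ≤ (N : ℝ) * (2 * Real.pi * (1 / (N : ℝ))) := by
            apply mul_le_mul hM' _ (by positivity) hN0.le
            exact mul_le_mul_of_nonneg_left htt (by positivity)
        _ = 2 * Real.pi := by field_simp)
  rw [h1]
  refine h2.trans (le_of_eq ?_)
  ring

theorem sm_cont (k N : ℕ) (t c : ℝ) : Continuous (fun x : ℝ => sm k N t (x + c)) := by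
  unfold Pool.Agent.W928.MW.sm
  refine continuous_finsetSum _ (fun n _ => ?_)
  exact e_cont.comp (by fun_prop)

/-- measure of the set where an incomplete sum is large -/
theorem meas_max (k N : ℕ) (t : ℝ) (p : ℕ) (K : ℝ) (hN : 1 ≤ N) (hMV : MV k N t p K)
    (u v : ℤ) (lam : ℝ) (huv : u ≤ v) (hl : 0 < lam) :
    volume {x : ℝ | x ∈ Set.Icc (u : ℝ) (v : ℝ) ∧ ∃ m : ℕ, m ≤ N ∧ lam ≤ ‖sm k m t x‖} ≤
      ENNReal.ofReal (((v : ℝ) - u) * ((2 + Real.log N) ^ p * K) / lam ^ p) := by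
  have hN' : (1 : ℝ) ≤ N := by exact_mod_cast hN
  have hN0 : (0 : ℝ) < N := by linarith
  have huv' : (u : ℝ) ≤ (v : ℝ) := by exact_mod_cast huv
  set Wt : ℝ := ∑ b ∈ range N, wt N b with hWt
  have hWle : Wt ≤ 2 + Real.log N := wt_sum N hN
  have hW1 : 1 ≤ Wt := by
    have h1 : wt N 0 ≤ Wt := Finset.single_le_sum (f := fun b => wt N b)
      (fun b hb => wt_nonneg N b (Finset.mem_range.mp hb)) (Finset.mem_range.mpr (by omega))
    have h2 : wt N 0 = 1 := by unfold wt; simp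
    linarith
  have hW0 : 0 < Wt := by linarith
  set G : ℝ → ℝ := fun x => Wt ^ p * ∑ b ∈ range N, (wt N b / Wt) * ‖sm k N t (x + (b : ℝ) / N)‖ ^ p with hG
  have hGc : Continuous G := by
    rw [hG]
    refine continuous_const.mul (continuous_finsetSum _ (fun b _ => ?_))
    exact continuous_const.mul ((sm_cont k N t ((b : ℝ) / N)).norm.pow p)
  have hG0 : ∀ x, 0 ≤ G x := by
    intro x
    rw [hG]
    apply mul_nonneg (by positivity)
    apply Finset.sum_nonneg
    intro b hb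
    have := wt_nonneg N b (Finset.mem_range.mp hb)
    positivity
  have hpt : ∀ (x : ℝ) (m : ℕ), m ≤ N → ‖sm k m t x‖ ^ p ≤ G x := by
    intro x m hm
    have h1 := max_pt N m hN hm (fun n => e (t * (n : ℝ) ^ k)) x
    rw [← sm_form] at h1
    have h2 : ∑ b ∈ range N, wt N b * ‖∑ n ∈ Icc 1 N, e (t * (n : ℝ) ^ k) * e ((x + b / N) * n)‖ =
        Wt * ∑ b ∈ range N, (wt N b / Wt) * ‖sm k N t (x + (b : ℝ) / N)‖ := by
      rw [Finset.mul_sum]
      apply Finset.sum_congr rfl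
      intro b _
      rw [← sm_form]
      field_simp
    rw [h2] at h1
    have h3 := pow_le_pow_left₀ (norm_nonneg _) h1 p
    refine h3.trans ?_
    rw [mul_pow, hG]
    apply mul_le_mul_of_nonneg_left _ (by positivity)
    apply Real.pow_arith_mean_le_arith_mean_pow
    · intro b hb
      have := wt_nonneg N b (Finset.mem_range.mp hb)
      positivity
    · rw [← Finset.sum_div, ← hWt, div_self hW0.ne']
    · intro b _
      exact norm_nonneg _
  have hint : ∫ x in (u : ℝ)..(v : ℝ), G x ≤ ((v : ℝ) - u) * ((2 + Real.log N) ^ p * K) := by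
    rw [hG, intervalIntegral.integral_const_mul, intervalIntegral.integral_finsetSum]
    · have h1 : ∀ b ∈ range N, ∫ x in (u : ℝ)..(v : ℝ), (wt N b / Wt) * ‖sm k N t (x + (b : ℝ) / N)‖ ^ p ≤
          (wt N b / Wt) * (((v : ℝ) - u) * K) := by
        intro b hb
        rw [intervalIntegral.integral_const_mul]
        have := wt_nonneg N b (Finset.mem_range.mp hb)
        exact mul_le_mul_of_nonneg_left (hMV u v _ huv) (by positivity)
      have h2 := Finset.sum_le_sum h1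
      rw [← Finset.sum_mul, ← Finset.sum_div, ← hWt, div_self hW0.ne', one_mul] at h2
      have hK : 0 ≤ ((v : ℝ) - u) * K := by
        refine le_trans ?_ (hMV u v 0 huv)
        apply intervalIntegral.integral_nonneg huv'
        intro x _
        positivity
      calc Wt ^ p * ∑ b ∈ range N, ∫ x in (u : ℝ)..(v : ℝ), (wt N b / Wt) * ‖sm k N t (x + (b : ℝ) / N)‖ ^ p
          ≤ Wt ^ p * (((v : ℝ) - u) * K) := mul_le_mul_of_nonneg_left h2 (by positivity)
        _ ≤ (2 + Real.log N) ^ p * (((v : ℝ) - u) * K) := by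
            apply mul_le_mul_of_nonneg_right _ hK
            exact pow_le_pow_left₀ hW0.le hWle p
        _ = ((v : ℝ) - u) * ((2 + Real.log N) ^ p * K) := by ring
    · intro b _
      apply Continuous.intervalIntegrable
      exact continuous_const.mul ((sm_cont k N t ((b : ℝ) / N)).norm.pow p)
  set ρ : ℝ := lam ^ p with hρ
  have hρ0 : 0 < ρ := by positivity
  have hsub : {x : ℝ | x ∈ Set.Icc (u : ℝ) (v : ℝ) ∧ ∃ m : ℕ, m ≤ N ∧ lam ≤ ‖sm k m t x‖} ⊆
      {x : ℝ | ρ ≤ G x} ∩ Set.Icc (u : ℝ) (v : ℝ) := by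
    rintro x ⟨hx, m, hm, hξ⟩
    exact ⟨(pow_le_pow_left₀ hl.le hξ p).trans (hpt x m hm), hx⟩
  have hmeas : MeasurableSet {x : ℝ | ρ ≤ G x} := (isClosed_le continuous_const hGc).measurableSet
  have hint' : Integrable G (volume.restrict (Set.Icc (u : ℝ) (v : ℝ))) := (hGc.continuousOn).integrableOn_Icc
  have h3 := mul_meas_ge_le_integral_of_nonneg (μ := volume.restrict (Set.Icc (u : ℝ) (v : ℝ))) (f := G)
    (Filter.Eventually.of_forall hG0) hint' ρ
  have h4 : ∫ x, G x ∂(volume.restrict (Set.Icc (u : ℝ) (v : ℝ))) = ∫ x in (u : ℝ)..(v : ℝ), G x := by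
    rw [intervalIntegral.integral_of_le huv', integral_Icc_eq_integral_Ioc]
  rw [h4] at h3
  have h5 : (volume.restrict (Set.Icc (u : ℝ) (v : ℝ))).real {x : ℝ | ρ ≤ G x} =
      (volume ({x : ℝ | ρ ≤ G x} ∩ Set.Icc (u : ℝ) (v : ℝ))).toReal := by
    unfold Measure.real
    rw [Measure.restrict_apply hmeas]
  rw [h5] at h3
  have hfin : volume ({x : ℝ | ρ ≤ G x} ∩ Set.Icc (u : ℝ) (v : ℝ)) ≠ ⊤ := by
    refine ne_top_of_le_ne_top ?_ (measure_mono Set.inter_subset_right)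
    rw [Real.volume_Icc]
    exact ENNReal.ofReal_ne_top
  refine (measure_mono hsub).trans ?_
  rw [← ENNReal.ofReal_toReal hfin]
  apply ENNReal.ofReal_le_ofReal
  rw [le_div_iff₀ hρ0, mul_comm]
  exact h3.trans hint

end Pool.Agent.TH181.MX
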