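import Pool.Agent.TH181.MX.Dif
import Pool.Agent.Helper112.Arith

/-! # the sum over the differences -/

set_option autoImplicit false

open Finset MeasureTheory

namespace Pool.Agent.TH181.MX

open Pool.Agent.W928.MW (e sm)
open Pool.Agent.TH181.MW (LS LS_card mem_LS LS_zero TT card_H)
open Pool.Agent.H807R2.Dav (ee KK KK_nonneg KK_neg KK_le geo_bound vino)

/-- number of lists with given value of the product, up to sign -/
theorem prod_cnt (S : Finset ℤ) (j D : ℕ) (K : ℤ) (m : ℕ) (hm : m ≠ 0) (hD : m.divisors.card ≤ D) :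
    ((LS S j).filter (fun l => (K * l.prod).natAbs = m)).card ≤ (2 * D) ^ j := by
  set S' : Finset ℤ := (m.divisors).image (fun d : ℕ => (d : ℤ)) ∪
    (m.divisors).image (fun d : ℕ => -(d : ℤ)) with hS'
  have hS'card : S'.card ≤ 2 * D := by
    have h2 := Finset.card_union_le ((m.divisors).image (fun d : ℕ => (d : ℤ)))
      ((m.divisors).image (fun d : ℕ => -(d : ℤ)))
    have h3 : ((m.divisors).image (fun d : ℕ => (d : ℤ))).card ≤ m.divisors.card :=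
      Finset.card_image_le
    have h4 : ((m.divisors).image (fun d : ℕ => -(d : ℤ))).card ≤ m.divisors.card :=
      Finset.card_image_le
    rw [← hS'] at h2
    omega
  have h1 : (LS S j).filter (fun l => (K * l.prod).natAbs = m) ⊆ LS S' j := by
    intro l hl
    rw [Finset.mem_filter, mem_LS] at hl
    obtain ⟨⟨a1, _⟩, a3⟩ := hl
    rw [mem_LS]
    refine ⟨a1, ?_⟩
    intro h hh
    have h5 : h ∣ K * l.prod := (List.dvd_prod hh).mul_left K
    have h6 : h.natAbs ∈ m.divisors := by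
      rw [Nat.mem_divisors]
      refine ⟨?_, hm⟩
      rw [← a3]
      exact Int.natAbs_dvd_natAbs.mpr h5
    rw [hS', Finset.mem_union, Finset.mem_image, Finset.mem_image]
    rcases le_total 0 h with h0 | h0
    · left; exact ⟨_, h6, by omega⟩
    · right; exact ⟨_, h6, by omega⟩
  calc ((LS S j).filter (fun l => (K * l.prod).natAbs = m)).card ≤ (LS S' j).card := Finset.card_le_card h1
    _ = S'.card ^ j := LS_card _ _
    _ ≤ (2 * D) ^ j := Nat.pow_le_pow_left hS'card j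

theorem prod_abs (N j : ℕ) (l : List ℤ) (hl : l ∈ LS (Icc (-(N : ℤ)) N) j) : l.prod.natAbs ≤ N ^ j := by
  rw [mem_LS] at hl
  obtain ⟨h1, h2⟩ := hl
  induction l generalizing j with
  | nil =>
    simp only [List.length_nil] at h1
    subst h1
    simp
  | cons a l ih =>
    rw [List.length_cons] at h1
    subst h1
    rw [List.prod_cons, Int.natAbs_mul, pow_succ, mul_comm]
    have h3 := Finset.mem_Icc.mp (h2 a (by simp))
    apply Nat.mul_le_mul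
    · exact ih l.length rfl (fun h hh => h2 h (by simp [hh]))
    · omega

theorem KK_abs (M : ℝ) (v : ℤ) (t : ℝ) : KK M ((v : ℝ) * t) = KK M ((v.natAbs : ℝ) * t) := by
  rcases le_total 0 v with h | h
  · have : ((v.natAbs : ℕ) : ℝ) = (v : ℝ) := by
      rw [← Int.cast_natCast, Int.natAbs_of_nonneg h]
    rw [this]
  · have : ((v.natAbs : ℕ) : ℝ) = -(v : ℝ) := by
      rw [← Int.cast_natCast, Int.ofNat_natAbs_of_nonpos h]; push_cast; ring
    rw [this, neg_mul, KK_neg]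

/-- the sum over all lists of length `k-1` -/
theorem sum_all (k N q D : ℕ) (hk : 2 ≤ k) (hq : 1 ≤ q) (a : ℤ) (hcop : IsCoprime a (q : ℤ)) (t : ℝ)
    (ht : |t - a / q| ≤ 1 / (q : ℝ) ^ 2)
    (hD : ∀ n : ℕ, 1 ≤ n → n ≤ k.factorial * N ^ (k - 1) → n.divisors.card ≤ D) :
    ∑ l ∈ LS (Icc (-(N : ℤ)) N) (k - 1), ‖TT k N t 0 l‖ ≤
      2 * ((k - 1 : ℕ) : ℝ) * (2 * (N : ℝ) + 1) ^ (k - 1) + (2 * (D : ℝ)) ^ (k - 1) *
        ((((k.factorial * N ^ (k - 1) + 1 : ℕ) : ℝ) / q + 1) * (39 * N + 3 * q * (1 + Real.log q))) := by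
  classical
  set S : Finset ℤ := Icc (-(N : ℤ)) N with hS
  set j : ℕ := k - 1 with hj
  set H : ℕ := k.factorial * N ^ j + 1 with hH
  rw [← Finset.sum_filter_add_sum_filter_not (LS S j) (fun l => (0 : ℤ) ∈ l)]
  apply add_le_add
  · calc ∑ l ∈ (LS S j).filter (fun l => (0 : ℤ) ∈ l), ‖TT k N t 0 l‖
        ≤ ∑ _l ∈ (LS S j).filter (fun l => (0 : ℤ) ∈ l), 2 * (2 * (N : ℝ) + 1) := by
          apply Finset.sum_le_sum
          intro l hl
          rw [Finset.mem_filter, mem_LS] at hl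
          refine (TT_le k N (by omega) t l hl.1.1).trans ((KK_le (by positivity) _).trans ?_)
          linarith
      _ = 2 * ((((LS S j).filter (fun l => (0 : ℤ) ∈ l)).card : ℝ) * (2 * (N : ℝ) + 1)) := by
          rw [Finset.sum_const, nsmul_eq_mul]; ring
      _ ≤ 2 * ((j : ℝ) * (2 * (N : ℝ) + 1) ^ j) := by
          apply mul_le_mul_of_nonneg_left _ (by norm_num)
          have h1 := LS_zero S j
          rw [hS, card_H] at h1
          exact_mod_cast h1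
      _ = 2 * (j : ℝ) * (2 * (N : ℝ) + 1) ^ j := by ring
  · have h1 : ∑ l ∈ (LS S j).filter (fun l => ¬ (0 : ℤ) ∈ l), ‖TT k N t 0 l‖ ≤
        ∑ l ∈ (LS S j).filter (fun l => ¬ (0 : ℤ) ∈ l), KK N (((((k.factorial : ℤ) * l.prod).natAbs : ℕ) : ℝ) * t) := by
      apply Finset.sum_le_sum
      intro l hl
      rw [Finset.mem_filter, mem_LS] at hl
      rw [← KK_abs]
      exact TT_le k N (by omega) t l hl.1.1
    refine h1.trans ?_
    have h2 : ∀ l ∈ (LS S j).filter (fun l => ¬ (0 : ℤ) ∈ l), ((k.factorial : ℤ) * l.prod).natAbs ∈ range H := by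
      intro l hl
      rw [Finset.mem_filter] at hl
      rw [Finset.mem_range, Int.natAbs_mul, Int.natAbs_natCast, hH]
      have := Nat.mul_le_mul_left k.factorial (prod_abs N j l hl.1)
      omega
    rw [← Finset.sum_fiberwise_of_maps_to h2]
    have h3 : ∀ m ∈ range H, ∑ l ∈ ((LS S j).filter (fun l => ¬ (0 : ℤ) ∈ l)).filter
        (fun l => ((k.factorial : ℤ) * l.prod).natAbs = m), KK N (((((k.factorial : ℤ) * l.prod).natAbs : ℕ) : ℝ) * t) ≤
        (2 * (D : ℝ)) ^ j * KK N (0 + (m : ℝ) * t) := by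
      intro m hm
      rw [zero_add]
      rcases Nat.eq_zero_or_pos m with h0 | h0
      · have h4 : ((LS S j).filter (fun l => ¬ (0 : ℤ) ∈ l)).filter
            (fun l => ((k.factorial : ℤ) * l.prod).natAbs = m) = ∅ := by
          rw [Finset.eq_empty_iff_forall_notMem]
          intro l hl
          rw [Finset.mem_filter, Finset.mem_filter] at hl
          have h5 := hl.2
          rw [h0, Int.natAbs_eq_zero, mul_eq_zero] at h5
          rcases h5 with h5 | h5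
          · have := Nat.factorial_ne_zero k
            exact this (by exact_mod_cast h5)
          · exact hl.1.2 (List.prod_eq_zero_iff.mp h5)
        rw [h4, Finset.sum_empty]
        have := KK_nonneg (M := (N : ℝ)) (by positivity) ((m : ℝ) * t)
        positivity
      · have h4 : ∀ l ∈ ((LS S j).filter (fun l => ¬ (0 : ℤ) ∈ l)).filter
            (fun l => ((k.factorial : ℤ) * l.prod).natAbs = m),
            KK N (((((k.factorial : ℤ) * l.prod).natAbs : ℕ) : ℝ) * t) = KK N ((m : ℝ) * t) := by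
          intro l hl
          rw [(Finset.mem_filter.mp hl).2]
        rw [Finset.sum_congr rfl h4, Finset.sum_const, nsmul_eq_mul]
        apply mul_le_mul_of_nonneg_right _ (KK_nonneg (by positivity) _)
        have h5 : (((LS S j).filter (fun l => ¬ (0 : ℤ) ∈ l)).filter
            (fun l => ((k.factorial : ℤ) * l.prod).natAbs = m)).card ≤ (2 * D) ^ j := by
          refine le_trans (Finset.card_le_card ?_) (prod_cnt S j D k.factorial m (by omega)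
            (hD m h0 (by rw [Finset.mem_range] at hm; omega)))
          intro l hl
          rw [Finset.mem_filter, Finset.mem_filter] at hl
          rw [Finset.mem_filter]
          exact ⟨hl.1.1, hl.2⟩
        exact_mod_cast h5
    refine (Finset.sum_le_sum h3).trans ?_
    rw [← Finset.mul_sum]
    apply mul_le_mul_of_nonneg_left _ (by positivity)
    exact vino hq hcop ht (by positivity) 0 H

theorem log_le (η : ℝ) (hη : 0 < η) : ∃ C : ℝ, 0 < C ∧ ∀ N : ℕ, 1 ≤ N → 1 + Real.log N ≤ C * (N : ℝ) ^ η := by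
  refine ⟨1 + 1 / η, by positivity, fun N hN => ?_⟩
  have hN' : (1 : ℝ) ≤ N := by exact_mod_cast hN
  have h1 := Real.log_le_rpow_div (show (0 : ℝ) ≤ (N : ℝ) by positivity) hη
  have h2 : 1 ≤ (N : ℝ) ^ η := Real.one_le_rpow hN' hη.le
  have h3 : (N : ℝ) ^ η / η = 1 / η * (N : ℝ) ^ η := by ring
  rw [h3] at h1
  linarith

theorem sum_bound (k : ℕ) (hk : 2 ≤ k) (η : ℝ) (hη : 0 < η) : ∃ C : ℝ, 0 < C ∧ ∀ N q : ℕ, 1 ≤ N → 1 ≤ q → q ≤ N →
    ∀ (a : ℤ) (t : ℝ), IsCoprime a (q : ℤ) → |t - a / q| ≤ 1 / (q : ℝ) ^ 2 →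
    ∑ l ∈ LS (Icc (-(N : ℤ)) N) (k - 1), ‖TT k N t 0 l‖ ≤
      C * (N : ℝ) ^ η * (N : ℝ) ^ k * (1 / (q : ℝ) + 1 / (N : ℝ)) := by
  set j : ℕ := k - 1 with hj
  have hjk : k = j + 1 := by omega
  have hj1 : 1 ≤ j := by omega
  have hj0 : (0 : ℝ) < j := by exact_mod_cast hj1
  set δ : ℝ := η / (2 * j * j) with hδ
  have hδ0 : 0 < δ := by positivity
  obtain ⟨C0, hC0, hC⟩ := Pool.Agent.Helper112.divisor_bound δ hδ0
  obtain ⟨C1, hC1, hlog⟩ := log_le (η / 2) (by positivity)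
  set F : ℝ := (k.factorial : ℝ) with hF
  have hF1 : 1 ≤ F := by
    rw [hF]; exact_mod_cast Nat.factorial_pos k
  set C2 : ℝ := (2 * (C0 * F ^ δ)) ^ j with hC2
  have hC2' : 0 < C2 := by positivity
  refine ⟨2 * j * 3 ^ j + C2 * ((F + 2) * 39 * C1), by positivity, fun N q hN hq hqN a t hcop ht => ?_⟩
  have hN' : (1 : ℝ) ≤ (N : ℝ) := by exact_mod_cast hN
  have hN0 : (0 : ℝ) < (N : ℝ) := by linarith
  have hq' : (1 : ℝ) ≤ (q : ℝ) := by exact_mod_cast hq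
  have hq0 : (0 : ℝ) < (q : ℝ) := by linarith
  have hqN' : (q : ℝ) ≤ N := by exact_mod_cast hqN
  set D : ℕ := ⌊C0 * (F * (N : ℝ) ^ j) ^ δ⌋₊ with hD
  have hDb : ∀ n : ℕ, 1 ≤ n → n ≤ k.factorial * N ^ (k - 1) → n.divisors.card ≤ D := by
    intro n hn hn2
    rw [hD]
    apply Nat.le_floor
    refine (hC n hn).trans ?_
    apply mul_le_mul_of_nonneg_left _ hC0.le
    apply Real.rpow_le_rpow (by positivity) _ hδ0.le
    rw [hF]
    exact_mod_cast hn2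
  have hDr : (2 * (D : ℝ)) ^ j ≤ C2 * (N : ℝ) ^ (η / 2) := by
    have h1 : (D : ℝ) ≤ C0 * (F * (N : ℝ) ^ j) ^ δ := Nat.floor_le (by positivity)
    have h2 : (F * (N : ℝ) ^ j) ^ δ = F ^ δ * (N : ℝ) ^ (j * δ) := by
      rw [Real.mul_rpow (by positivity) (by positivity), ← Real.rpow_natCast (N : ℝ) j, ← Real.rpow_mul hN0.le]
    have h3 : 2 * (D : ℝ) ≤ 2 * (C0 * F ^ δ) * (N : ℝ) ^ (j * δ) := by
      rw [h2] at h1
      calc 2 * (D : ℝ) ≤ 2 * (C0 * (F ^ δ * (N : ℝ) ^ (j * δ))) := by linarith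
        _ = _ := by ring
    have h4 := pow_le_pow_left₀ (by positivity) h3 j
    refine h4.trans (le_of_eq ?_)
    rw [mul_pow, ← hC2]
    congr 1
    rw [← Real.rpow_natCast ((N : ℝ) ^ (j * δ)) j, ← Real.rpow_mul hN0.le]
    congr 1
    rw [hδ]; field_simp
  have hmain := sum_all k N q D hk hq a hcop t ht hDb
  rw [← hj] at hmain
  refine hmain.trans ?_
  have hlq : Real.log q ≤ Real.log N := Real.log_le_log hq0 hqN'
  have hlq0 : 0 ≤ Real.log q := Real.log_nonneg hq'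
  have hX : (0 : ℝ) ≤ 1 / (q : ℝ) + 1 / (N : ℝ) := by positivity
  have hNη : 1 ≤ (N : ℝ) ^ η := Real.one_le_rpow hN' hη.le
  have hsplit : (N : ℝ) ^ η = (N : ℝ) ^ (η / 2) * (N : ℝ) ^ (η / 2) := by
    rw [← Real.rpow_add hN0]; congr 1; ring
  have hNk : (N : ℝ) ^ k = (N : ℝ) ^ j * N := by rw [hjk, pow_succ]
  have hA : 2 * (j : ℝ) * (2 * (N : ℝ) + 1) ^ j ≤
      (2 * j * 3 ^ j) * (N : ℝ) ^ η * (N : ℝ) ^ k * (1 / (q : ℝ) + 1 / (N : ℝ)) := by
    have h1 : (2 * (N : ℝ) + 1) ^ j ≤ 3 ^ j * (N : ℝ) ^ j := by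
      rw [← mul_pow]
      exact pow_le_pow_left₀ (by positivity) (by linarith) j
    have h2 : (N : ℝ) ^ j ≤ (N : ℝ) ^ k * (1 / (q : ℝ) + 1 / (N : ℝ)) := by
      rw [hNk]
      have h3 : (N : ℝ) ^ j * N * (1 / (q : ℝ) + 1 / (N : ℝ)) = (N : ℝ) ^ j * (N / q) + (N : ℝ) ^ j := by
        field_simp
      rw [h3]
      have : 0 ≤ (N : ℝ) ^ j * (N / q) := by positivity
      linarith
    calc 2 * (j : ℝ) * (2 * (N : ℝ) + 1) ^ j ≤ 2 * (j : ℝ) * (3 ^ j * (N : ℝ) ^ j) :=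
          mul_le_mul_of_nonneg_left h1 (by positivity)
      _ = (2 * j * 3 ^ j) * 1 * (N : ℝ) ^ j := by ring
      _ ≤ (2 * j * 3 ^ j) * (N : ℝ) ^ η * ((N : ℝ) ^ k * (1 / (q : ℝ) + 1 / (N : ℝ))) := by
          gcongr
      _ = _ := by ring
  have hB : (((k.factorial * N ^ j + 1 : ℕ) : ℝ) / q + 1) * (39 * N + 3 * q * (1 + Real.log q)) ≤
      ((F + 2) * 39 * C1) * (N : ℝ) ^ (η / 2) * (N : ℝ) ^ k * (1 / (q : ℝ) + 1 / (N : ℝ)) := by
    have h1 : ((k.factorial * N ^ j + 1 : ℕ) : ℝ) / q + 1 ≤ (F + 2) * ((N : ℝ) ^ j / q) := by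
      have h2 : (N : ℝ) ≤ (N : ℝ) ^ j := by
        calc (N : ℝ) = (N : ℝ) ^ 1 := (pow_one _).symm
          _ ≤ (N : ℝ) ^ j := pow_le_pow_right₀ hN' hj1
      have h3 : (1 : ℝ) ≤ (N : ℝ) ^ j / q := by
        rw [le_div_iff₀ hq0]; linarith
      have h4 : (1 : ℝ) / q ≤ (N : ℝ) ^ j / q := by
        apply div_le_div_of_nonneg_right _ hq0.le
        linarith
      push_cast
      rw [add_div]
      calc (k.factorial : ℝ) * (N : ℝ) ^ j / q + 1 / q + 1 ≤ F * ((N : ℝ) ^ j / q) + (N : ℝ) ^ j / q + (N : ℝ) ^ j / q := by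
            rw [hF, mul_div_assoc]
            linarith
        _ = _ := by ring
    have h5 : 39 * (N : ℝ) + 3 * q * (1 + Real.log q) ≤ 39 * (C1 * (N : ℝ) ^ (η / 2)) * (N + q) := by
      have h6 := hlog N hN
      have h7 : 1 ≤ 1 + Real.log N := by linarith
      have h8 : 1 + Real.log q ≤ C1 * (N : ℝ) ^ (η / 2) := by linarith
      have h9 : 1 ≤ C1 * (N : ℝ) ^ (η / 2) := by linarith
      have h10 : 3 * (q : ℝ) * (1 + Real.log q) ≤ 39 * q * (C1 * (N : ℝ) ^ (η / 2)) := by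
        apply mul_le_mul (by linarith) h8 (by linarith) (by positivity)
      have h11 : 39 * (N : ℝ) * 1 ≤ 39 * (N : ℝ) * (C1 * (N : ℝ) ^ (η / 2)) :=
        mul_le_mul_of_nonneg_left h9 (by positivity)
      calc 39 * (N : ℝ) + 3 * q * (1 + Real.log q) ≤ 39 * (N : ℝ) * (C1 * (N : ℝ) ^ (η / 2)) +
            39 * q * (C1 * (N : ℝ) ^ (η / 2)) := by linarith
        _ = _ := by ring
    calc (((k.factorial * N ^ j + 1 : ℕ) : ℝ) / q + 1) * (39 * N + 3 * q * (1 + Real.log q))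
        ≤ ((F + 2) * ((N : ℝ) ^ j / q)) * (39 * (C1 * (N : ℝ) ^ (η / 2)) * (N + q)) := by
          apply mul_le_mul h1 h5 (by positivity) (by positivity)
      _ = ((F + 2) * 39 * C1) * (N : ℝ) ^ (η / 2) * (N : ℝ) ^ k * (1 / (q : ℝ) + 1 / (N : ℝ)) := by
          rw [hNk]; field_simp
  calc 2 * (j : ℝ) * (2 * (N : ℝ) + 1) ^ j + (2 * (D : ℝ)) ^ j *
        ((((k.factorial * N ^ j + 1 : ℕ) : ℝ) / q + 1) * (39 * N + 3 * q * (1 + Real.log q)))
      ≤ (2 * j * 3 ^ j) * (N : ℝ) ^ η * (N : ℝ) ^ k * (1 / (q : ℝ) + 1 / (N : ℝ)) + (C2 * (N : ℝ) ^ (η / 2)) *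
        (((F + 2) * 39 * C1) * (N : ℝ) ^ (η / 2) * (N : ℝ) ^ k * (1 / (q : ℝ) + 1 / (N : ℝ))) := by
        apply add_le_add hA
        apply mul_le_mul hDr hB (by positivity) (by positivity)
    _ = _ := by
        rw [hsplit]; ring

/-- the fourth moment over the linear coefficient -/
theorem fourth (k : ℕ) (hk : 3 ≤ k) (η : ℝ) (hη : 0 < η) : ∃ C : ℝ, 0 < C ∧ ∀ N q : ℕ, 1 ≤ N → 1 ≤ q → q ≤ N →
    ∀ (a : ℤ) (t : ℝ), IsCoprime a (q : ℤ) → |t - a / q| ≤ 1 / (q : ℝ) ^ 2 →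
    MV k N t 4 (C * (N : ℝ) ^ (3 + η) * (1 / (q : ℝ) + 1 / (N : ℝ)) ^ (8 / (2 : ℝ) ^ k)) := by
  obtain ⟨i, rfl⟩ : ∃ i, k = i + 3 := ⟨k - 3, by omega⟩
  obtain ⟨C1, hC1, h1⟩ := sum_bound (i + 3) (by omega) η hη
  refine ⟨27 * C1 ^ (1 / (2 : ℝ) ^ i), by positivity, fun N q hN hq hqN a t hcop ht => ?_⟩
  have hN' : (1 : ℝ) ≤ (N : ℝ) := by exact_mod_cast hN
  have hN0 : (0 : ℝ) < (N : ℝ) := by linarith
  have hq' : (1 : ℝ) ≤ (q : ℝ) := by exact_mod_cast hq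
  have hq0 : (0 : ℝ) < (q : ℝ) := by linarith
  have h2 := h1 N q hN hq hqN a t hcop ht
  have h3 := iter (i + 3) N t i
  have e1 : i + 3 - 1 = 2 + i := by omega
  rw [e1] at h2
  set A : ℝ := ∑ l ∈ LS (Icc (-(N : ℤ)) N) 2, ‖TT (i + 3) N t 0 l‖ with hA
  set B : ℝ := ∑ l ∈ LS (Icc (-(N : ℤ)) N) (2 + i), ‖TT (i + 3) N t 0 l‖ with hB
  set Δ : ℝ := 1 / (q : ℝ) + 1 / (N : ℝ) with hΔ
  have hΔ0 : 0 < Δ := by positivity
  have hA0 : 0 ≤ A := Finset.sum_nonneg (fun l _ => norm_nonneg _)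
  have hB0 : 0 ≤ B := Finset.sum_nonneg (fun l _ => norm_nonneg _)
  set n : ℕ := 2 ^ i with hn
  have hn0 : n ≠ 0 := by positivity
  have h4 : A ^ n ≤ (27 * (N : ℝ) ^ 3) ^ n * (C1 * (N : ℝ) ^ η * Δ) := by
    have h5 : A ^ n * (N : ℝ) ^ (i + 3) ≤ A ^ n * (2 * (N : ℝ) + 1) ^ (i + 3) := by
      apply mul_le_mul_of_nonneg_left _ (by positivity)
      exact pow_le_pow_left₀ hN0.le (by linarith) _
    have h6 : (2 * (N : ℝ) + 1) ^ (3 * n) ≤ (27 * (N : ℝ) ^ 3) ^ n := by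
      rw [pow_mul]
      apply pow_le_pow_left₀ (by positivity)
      have : (2 * (N : ℝ) + 1) ^ 3 ≤ (3 * (N : ℝ)) ^ 3 := pow_le_pow_left₀ (by positivity) (by linarith) 3
      calc (2 * (N : ℝ) + 1) ^ 3 ≤ (3 * (N : ℝ)) ^ 3 := this
        _ = 27 * (N : ℝ) ^ 3 := by ring
    have h7 : (2 * (N : ℝ) + 1) ^ (3 * n) * B ≤ (27 * (N : ℝ) ^ 3) ^ n * (C1 * (N : ℝ) ^ η * (N : ℝ) ^ (i + 3) * Δ) :=
      mul_le_mul h6 h2 hB0 (by positivity)
    have h8 : A ^ n * (N : ℝ) ^ (i + 3) ≤ ((27 * (N : ℝ) ^ 3) ^ n * (C1 * (N : ℝ) ^ η * Δ)) * (N : ℝ) ^ (i + 3) := by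
      refine (h5.trans (h3.trans h7)).trans (le_of_eq ?_)
      ring
    exact le_of_mul_le_mul_right h8 (by positivity)
  have h5 : A ≤ 27 * (N : ℝ) ^ 3 * (C1 * (N : ℝ) ^ η * Δ) ^ (1 / (n : ℝ)) := by
    have h6 : (27 * (N : ℝ) ^ 3 * (C1 * (N : ℝ) ^ η * Δ) ^ (1 / (n : ℝ))) ^ n =
        (27 * (N : ℝ) ^ 3) ^ n * (C1 * (N : ℝ) ^ η * Δ) := by
      rw [mul_pow, ← Real.rpow_natCast ((C1 * (N : ℝ) ^ η * Δ) ^ (1 / (n : ℝ))) n, ← Real.rpow_mul (by positivity),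
        one_div, inv_mul_cancel₀ (by exact_mod_cast hn0), Real.rpow_one]
    rw [← h6] at h4
    exact (pow_le_pow_iff_left₀ hA0 (by positivity) hn0).mp h4
  have h9 : A ≤ 27 * C1 ^ (1 / (2 : ℝ) ^ i) * (N : ℝ) ^ (3 + η) * Δ ^ (8 / (2 : ℝ) ^ (i + 3)) := by
    refine h5.trans ?_
    have e2 : 1 / (n : ℝ) = 1 / (2 : ℝ) ^ i := by rw [hn]; push_cast; rfl
    have e3 : 8 / (2 : ℝ) ^ (i + 3) = 1 / (2 : ℝ) ^ i := by
      rw [pow_add]; field_simp; norm_num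
    rw [e2, e3, Real.mul_rpow (by positivity) hΔ0.le, Real.mul_rpow hC1.le (by positivity), ← Real.rpow_mul hN0.le]
    have h10 : (N : ℝ) ^ (η * (1 / (2 : ℝ) ^ i)) ≤ (N : ℝ) ^ η := by
      apply Real.rpow_le_rpow_of_exponent_le hN'
      have : 1 / (2 : ℝ) ^ i ≤ 1 := by
        rw [div_le_one (by positivity)]; exact one_le_pow₀ (by norm_num)
      nlinarith
    have h11 : (N : ℝ) ^ (3 + η) = (N : ℝ) ^ 3 * (N : ℝ) ^ η := by
      rw [Real.rpow_add hN0]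
      congr 1
      norm_cast
    rw [h11]
    calc 27 * (N : ℝ) ^ 3 * (C1 ^ (1 / (2 : ℝ) ^ i) * (N : ℝ) ^ (η * (1 / (2 : ℝ) ^ i)) * Δ ^ (1 / (2 : ℝ) ^ i))
        ≤ 27 * (N : ℝ) ^ 3 * (C1 ^ (1 / (2 : ℝ) ^ i) * (N : ℝ) ^ η * Δ ^ (1 / (2 : ℝ) ^ i)) := by
          gcongr
      _ = _ := by ring
  intro u v c huv
  have huv' : (u : ℝ) ≤ (v : ℝ) := by exact_mod_cast huv
  refine (mv_four (i + 3) N t u v c huv).trans ?_
  exact mul_le_mul_of_nonneg_left h9 (by linarith)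

end Pool.Agent.TH181.MX
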